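import Pool.Agent.Helper18.SU.Goals2

/-!
# Packet REV: reversal of the tournament
-/

set_option autoImplicit false

namespace Pool.Agent.Helper5.SU

open Pool.Agent.Helper18.SU

theorem arc_op {V : Type} (A : V → V → Prop) (d : Bool) (x y : V) :
    Arc (Op A) d x y ↔ Arc A (!d) x y := by
  cases d <;> rfl

theorem tour_op {V : Type} {A : V → V → Prop} (h : Tour A) : Tour (Op A) := by
  obtain ⟨h1, h2⟩ := h
  exact ⟨fun u v h3 h4 => h1 v u h3 h4, fun u v h3 => (h2 u v h3).symm⟩

theorem nb_op {V : Type} (A : V → V → Prop) (d : Bool) (X : Finset V) (x : V) :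
    nb (Op A) d X x = nb A (!d) X x := by
  ext y
  simp only [nb, Finset.mem_filter, arc_op]

theorem emb_op {W V : Type} (A : V → V → Prop) (r : W) (par : W → W) (sgn : W → Bool)
    (S : Finset W) (X : Finset V) (f : W → V) :
    Emb (Op A) r par (fun w => !sgn w) S X f ↔ Emb A r par sgn S X f := by
  unfold Emb
  simp only [arc_op, Bool.not_not]

theorem topd_op {W : Type} [Fintype W] (par : W → W) (sgn : W → Bool) (K : Finset W) (d : Bool) :
    topd par (fun w => !sgn w) K d = topd par sgn K (!d) := by
  ext c
  simp only [topd, Finset.mem_filter]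
  cases d <;> cases sgn c <;> simp

theorem REV : REV_stmt := by
  intro W V _ _ A r par dep sgn K β m
  refine ⟨tour_op, arc_op A, nb_op A, ?_, ?_, emb_op A r par sgn, ?_, topd_op par sgn K, ?_, ?_⟩
  · intro d c
    ext x
    simp only [low, Finset.mem_filter, nb_op]
  · intro a b
    ext x
    simp only [mid, Finset.mem_filter, nb_op, Bool.not_true, Bool.not_false]
    tauto
  · unfold Full
    simp only [emb_op]
  · intro d
    unfold mas
    rw [topd_op]
  · rintro ⟨h1, h2⟩
    exact ⟨tour_op h1, h2⟩

end Pool.Agent.Helper5.SU
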