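import Pool.Agent.Helper18.SU.Goals2

/-!
# Packet STAR: a subtree with prescribed image of its top
-/

set_option autoImplicit false

namespace Pool.Agent.Helper5.SU

open Pool.Agent.Helper18.SU

theorem mem_dsc {W : Type} [Fintype W] (par : W → W) (c w : W) :
    w ∈ dsc par c ↔ ∃ k : ℕ, par^[k] w = c := by
  simp [dsc]

theorem STAR (h1 : SUBT_stmt) (h2 : DSC_stmt) : STAR_stmt := by
  classical
  intro W V _ _ _ A hA r par dep hr sgn S c hcS hSc hpar z T1 T0 hT1 hT0 hc1 hc0
  obtain ⟨d1, d2, d3, d4, -, -, -⟩ := h2 W r par dep hr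
  -- children of `c`
  have hch : ∀ c', c' ≠ c → par c' = c → c ∉ dsc par c' := by
    intro c' hne hp hmem
    have h3 := d4 c' c hmem (Ne.symm hne)
    have h4 : c' ≠ r := by
      rintro rfl
      apply hne
      rw [← hp]
      exact hr.2.1.symm
    have h5 := hr.2.2 c' h4
    rw [hp] at h5
    omega
  have huniq : ∀ c₁ c₂, c₁ ≠ c → par c₁ = c → c₂ ≠ c → par c₂ = c → ∀ w, w ∈ dsc par c₁ →
      w ∈ dsc par c₂ → c₁ = c₂ := by
    have key : ∀ c₁ c₂, par c₁ = c → c₂ ≠ c → par c₂ = c → ∀ w (i j : ℕ),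
        par^[i] w = c₁ → par^[j] w = c₂ → i < j → False := by
      intro c₁ c₂ hp1 hne2 hp2 w i j hi hj hij
      apply hch c₂ hne2 hp2
      rw [mem_dsc]
      refine ⟨j - i - 1, ?_⟩
      rw [← hj, ← hp1, ← hi]
      have h3 : j = (j - i - 1) + (1 + i) := by omega
      conv_rhs => rw [h3, Function.iterate_add_apply, Function.iterate_add_apply]
      rfl
    intro c₁ c₂ hne1 hp1 hne2 hp2 w hw1 hw2
    obtain ⟨i, hi⟩ := (mem_dsc par c₁ w).1 hw1
    obtain ⟨j, hj⟩ := (mem_dsc par c₂ w).1 hw2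
    rcases lt_trichotomy i j with h | h | h
    · exact (key c₁ c₂ hp1 hne2 hp2 w i j hi hj h).elim
    · rw [← hi, ← hj, h]
    · exact (key c₂ c₁ hp2 hne1 hp1 w j i hj hi h).elim
  -- the two parts
  set P : Bool → Finset W := fun d => S.filter (fun w => ∃ c', c' ≠ c ∧ par c' = c ∧ sgn c' = d ∧
    w ∈ dsc par c') with hP
  have hPS : ∀ d, P d ⊆ S := fun d => Finset.filter_subset _ _
  have hmemP : ∀ d w, w ∈ P d ↔ w ∈ S ∧ ∃ c', c' ≠ c ∧ par c' = c ∧ sgn c' = d ∧
      w ∈ dsc par c' := by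
    intro d w
    rw [hP]
    exact Finset.mem_filter
  have hcP : ∀ d w, w ∈ P d → w ≠ c := by
    rintro d w hw rfl
    obtain ⟨-, c', h3, h4, -, h5⟩ := (hmemP d w).1 hw
    exact hch c' h3 h4 h5
  have hdisj : ∀ w, w ∈ P true → w ∈ P false → False := by
    intro w hw1 hw2
    obtain ⟨-, c₁, h3, h4, h5, h6⟩ := (hmemP _ w).1 hw1
    obtain ⟨-, c₂, h7, h8, h9, h10⟩ := (hmemP _ w).1 hw2
    have := huniq c₁ c₂ h3 h4 h7 h8 w h6 h10
    rw [this, h9] at h5
    cases h5
  have hcov : ∀ n w, dep w = n → w ∈ S → w ≠ c → ∃ d, w ∈ P d := by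
    intro n
    induction n using Nat.strong_induction_on with
    | _ n ih =>
      intro w hn hw hwc
      have hpw := hpar w hw hwc
      by_cases hpc : par w = c
      · exact ⟨sgn w, (hmemP _ _).2 ⟨hw, w, hwc, hpc, rfl, d1 w⟩⟩
      · have hwr : w ≠ r := by
          rintro rfl
          -- `w = r ∈ S ⊆ dsc par c`, so `c = r`
          obtain ⟨k, hk⟩ := (mem_dsc par c w).1 (hSc hw)
          apply hwc
          have : ∀ k : ℕ, par^[k] w = w := by
            intro k
            exact Function.iterate_fixed hr.2.1 k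
          rw [← hk, this k]
        have hdep := hr.2.2 w hwr
        obtain ⟨d, hd⟩ := ih (dep (par w)) (by omega) (par w) rfl hpw hpc
        obtain ⟨-, c', h3, h4, h5, h6⟩ := (hmemP _ _).1 hd
        exact ⟨d, (hmemP _ _).2 ⟨hw, c', h3, h4, h5, d3 c' w h6⟩⟩
  -- the two embeddings
  have hz1 : z ∉ T1 := by
    intro h
    have h3 : A z z := hT1 z h
    exact hA.1 z z h3 h3
  have hz0 : z ∉ T0 := by
    intro h
    have h3 : A z z := hT0 z h
    exact hA.1 z z h3 h3
  have hcard : ∀ d, (P d).card ≤ S.card := fun d => Finset.card_le_card (hPS d)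
  obtain ⟨f₁, hf₁⟩ := h1 W V A hA r par dep hr sgn (P true) T1 (by
    have := hcard true
    omega)
  obtain ⟨f₂, hf₂⟩ := h1 W V A hA r par dep hr sgn (P false) (T0 \ (P true).image f₁) (by
    have h3 := hcard true
    have h4 := hcard false
    have h5 := Finset.card_image_le (s := P true) (f := f₁)
    have h6 := Finset.le_card_sdiff ((P true).image f₁) T0
    omega)
  obtain ⟨a1, a2, a3⟩ := hf₁
  obtain ⟨b1, b2, b3⟩ := hf₂
  set f : W → V := fun w => if w = c then z else if w ∈ P true then f₁ w else f₂ w with hf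
  have hfc : f c = z := by rw [hf]; simp
  have hf1 : ∀ w, w ∈ P true → f w = f₁ w := by
    intro w hw
    rw [hf]
    simp only
    rw [if_neg (hcP _ w hw), if_pos hw]
  have hf0 : ∀ w, w ∈ P false → f w = f₂ w := by
    intro w hw
    rw [hf]
    simp only
    rw [if_neg (hcP _ w hw), if_neg (fun h => hdisj w h hw)]
  have hfT1 : ∀ w, w ∈ P true → f w ∈ T1 := fun w hw => by rw [hf1 w hw]; exact a1 w hw
  have hfT0 : ∀ w, w ∈ P false → f w ∈ T0 := fun w hw => by
    rw [hf0 w hw]; exact (Finset.mem_sdiff.1 (b1 w hw)).1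
  have hne10 : ∀ u, u ∈ P true → ∀ v, v ∈ P false → f u ≠ f v := by
    intro u hu v hv h3
    rw [hf1 u hu, hf0 v hv] at h3
    have h4 := (Finset.mem_sdiff.1 (b1 v hv)).2
    apply h4
    rw [← h3]
    exact Finset.mem_image_of_mem _ hu
  have hcases : ∀ w, w ∈ S → w = c ∨ w ∈ P true ∨ w ∈ P false := by
    intro w hw
    by_cases hwc : w = c
    · exact Or.inl hwc
    · obtain ⟨d, hd⟩ := hcov _ w rfl hw hwc
      cases d
      · exact Or.inr (Or.inr hd)
      · exact Or.inr (Or.inl hd)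
  have hzf : ∀ w, (w ∈ P true ∨ w ∈ P false) → f w ≠ z := by
    rintro w (hw | hw) h3
    · exact hz1 (h3 ▸ hfT1 w hw)
    · exact hz0 (h3 ▸ hfT0 w hw)
  -- arcs inside one part
  have harc : ∀ d w, w ∈ P d → w ≠ r → par w = c ∧ sgn w = d ∨ par w ∈ P d := by
    intro d w hw hwr
    obtain ⟨h3, c', h4, h5, h6, h7⟩ := (hmemP d w).1 hw
    by_cases hwc : w = c'
    · left
      rw [hwc]
      exact ⟨h5, h6⟩
    · right
      exact (hmemP d _).2 ⟨hpar w h3 (hcP d w hw), c', h4, h5, h6, d2 c' w h7 hwc⟩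
  refine ⟨f, ⟨?_, ?_, ?_⟩, hfc, ?_, ?_⟩
  · intro w hw
    rw [Finset.mem_insert, Finset.mem_union]
    rcases hcases w hw with h3 | h3 | h3
    · left; rw [h3, hfc]
    · right; left; exact hfT1 w h3
    · right; right; exact hfT0 w h3
  · intro u hu v hv huv
    rcases hcases u hu with h3 | h3 | h3 <;> rcases hcases v hv with h4 | h4 | h4
    · rw [h3, h4]
    · rw [h3, hfc] at huv; exact (hzf v (Or.inl h4) huv.symm).elim
    · rw [h3, hfc] at huv; exact (hzf v (Or.inr h4) huv.symm).elim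
    · rw [h4, hfc] at huv; exact (hzf u (Or.inl h3) huv).elim
    · rw [hf1 u h3, hf1 v h4] at huv; exact a2 u h3 v h4 huv
    · exact (hne10 u h3 v h4 huv).elim
    · rw [h4, hfc] at huv; exact (hzf u (Or.inr h3) huv).elim
    · exact (hne10 v h4 u h3 huv.symm).elim
    · rw [hf0 u h3, hf0 v h4] at huv; exact b2 u h3 v h4 huv
  · intro w hw hwr hpw
    rcases hcases w hw with h3 | h3 | h3
    · exfalso
      subst h3
      have h4 := hr.2.2 w hwr
      have h5 := hSc hpw
      have h6 := d4 w (par w) h5 (by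
        intro h7
        rw [h7] at h4
        omega)
      omega
    · rcases harc _ w h3 hwr with ⟨h4, h5⟩ | h4
      · rw [h4, hfc, h5]
        exact hT1 _ (hfT1 w h3)
      · rw [hf1 w h3, hf1 _ h4]
        exact a3 w h3 hwr h4
    · rcases harc _ w h3 hwr with ⟨h4, h5⟩ | h4
      · rw [h4, hfc, h5]
        exact hT0 _ (hfT0 w h3)
      · rw [hf0 w h3, hf0 _ h4]
        exact b3 w h3 hwr h4
  · intro w hw hwc
    rw [Finset.mem_union]
    rcases hcases w hw with h3 | h3 | h3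
    · exact (hwc h3).elim
    · left; exact hfT1 w h3
    · right; exact hfT0 w h3
  · intro c' hc' hpc' w hw hwS
    refine ⟨fun h3 => ?_, fun h3 => ?_⟩
    · exact hfT1 w ((hmemP _ w).2 ⟨hwS, c', hc', hpc', h3, hw⟩)
    · exact hfT0 w ((hmemP _ w).2 ⟨hwS, c', hc', hpc', h3, hw⟩)

end Pool.Agent.Helper5.SU
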